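import Mathlib
import Pool.Agent.Y576.BL.Main

set_option autoImplicit false

/-!
# A compact linearly ordered space without the Blumberg property, in ZFC

Let `A` be a stationary subset of `ω₁` with stationary complement. The points of the space are the
subsets of `A` containing each of their limit points below one of their elements, ordered
lexicographically. Every set of points has a least upper bound, so the space is compact. The cones
of points with a given closed bounded initial part form a `π`-base; as `A` is stationary, countably
many open sets are simultaneously decided by some cone. As the complement of `A` is stationary, all
points are bounded subsets of `ω₁`, so the space is a union of `ω₁` nowhere dense sets. Map a point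
to a real number coding a bound of it.
-/

namespace Pool.Agent.Results.MP_184855_gt.CompactLOTSWithoutBlumberg

/-- The Blumberg property: every real function is continuous on some dense subset (the restriction
is continuous in the subspace topology). -/
def HasBlumbergProperty (X : Type) [TopologicalSpace X] : Prop :=
  ∀ f : X → ℝ, ∃ D : Set X, Dense D ∧ Continuous (fun x : D => f x)

/-- There is (in ZFC) a compact linearly ordered space without the Blumberg property. -/
theorem result : ∃ (K : Type) (_ : LinearOrder K) (_ : TopologicalSpace K),
    OrderTopology K ∧ CompactSpace K ∧ ¬ HasBlumbergProperty K := by
  obtain ⟨A, hA, f, hf⟩ := Pool.Agent.Y576.BL.main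
  refine ⟨Pool.Agent.Y576.BL.K A, inferInstance, inferInstance, inferInstance, hA, fun h => ?_⟩
  obtain ⟨D, hD, hc⟩ := h f
  exact hf D hD (continuousOn_iff_continuous_domRestrict.2 hc)

end Pool.Agent.Results.MP_184855_gt.CompactLOTSWithoutBlumberg
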